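import Pool.Agent.MP_cce4c9_lc.H87.SpecR

/-! The search and the core routine run in polynomial time. -/

set_option autoImplicit false

open List Pool.Agent.Shared.H56 Pool.Agent.MP_cce4c9_lc.H87

namespace Pool.Agent.MP_cce4c9_lc.H22

variable {α : Type} [N487b59b3 α]

theorem pt_indR {B : α → Ds} {q l : α → ℕ} {tst : α → Ds → List Tab → List ℕ → El}
    {cd : α → List (El × Tab)} {A : α → List (List ℕ)} (r : ℕ) (hB : PT B) (hq : PT q)
    (hl : PT fun a => un (l a))
    (ht : PT fun p : α × Ds × List Tab × List ℕ => tst p.1 p.2.1 p.2.2.1 p.2.2.2)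
    (hcd : PT cd) (hA : PT A) :
    PT fun a => indR (B a) (q a) (l a) (tst a) r (cd a) (A a) := by
  have hl' : PT l := hl.of_un
  have h1 : PT fun a => (cd a).map Prod.fst :=
    PT.map (f := fun _ (x : El × Tab) => x.1) (by fun_prop) hcd
  have h2 : PT fun a => (cd a).map Prod.snd :=
    PT.map (f := fun _ (x : El × Tab) => x.2) (by fun_prop) hcd
  have h3 : PT fun a => (tuples (range (l a)) r).filter fun x => x.sum != 0 :=
    PT.filter (f := fun _ (x : List ℕ) => x.sum != 0) (by fun_prop) (pt_tuples hl.range r)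
  have h4 : PT fun a => ((tuples (range (l a)) r).filter fun x => x.sum != 0).map fun x =>
      sub (B a) (cst (B a) 1) (tst a (B a) ((cd a).map Prod.snd) x) := by
    refine PT.map (f := fun a x => sub (B a) (cst (B a) 1) (tst a (B a) ((cd a).map Prod.snd) x))
      ?_ h3
    have hB' : PT fun p : α × List ℕ => B p.1 := hB.comp PT.id'.fst
    refine pt_sub hB' (pt_cst hB' (PT.const 1)) ?_
    exact ht.comp (g := fun p : α × List ℕ => (p.1, B p.1, (cd p.1).map Prod.snd, p.2))
      (PT.id'.fst.prodMk (hB'.prodMk ((h2.comp PT.id'.fst).prodMk PT.id'.snd)))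
  have h5 : PT fun a => ((cd a).map Prod.snd).map (map (map fun x => pw (B a) x (q a))) := by
    refine PT.map (f := fun a (t : Tab) => t.map (map fun x => pw (B a) x (q a))) ?_ h2
    refine PT.map (f := fun (p : α × Tab) (t : List El) => t.map fun x => pw (B p.1) x (q p.1))
      ?_ PT.id'.snd
    refine PT.map (f := fun (p : (α × Tab) × List El) (x : El) => pw (B p.1.1) x (q p.1.1))
      ?_ PT.id'.snd
    exact pt_pw (hB.comp PT.id'.fst.fst.fst) PT.id'.snd (hq.comp PT.id'.fst.fst.fst)
  have h6 : PT fun a => (range r).map fun i =>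
      tst a (B a) (((cd a).map Prod.snd).getD i [] ::
        ((cd a).map Prod.snd).map (map (map fun x => pw (B a) x (q a))))
        ((l a - 1) :: (A a).getD i []) := by
    refine PT.map (f := fun a i => tst a (B a) (((cd a).map Prod.snd).getD i [] ::
        ((cd a).map Prod.snd).map (map (map fun x => pw (B a) x (q a))))
        ((l a - 1) :: (A a).getD i [])) ?_ (PT.const _)
    exact ht.comp (g := fun p : α × ℕ => (p.1, B p.1, ((cd p.1).map Prod.snd).getD p.2 [] ::
        ((cd p.1).map Prod.snd).map (map (map fun x => pw (B p.1) x (q p.1))),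
        (l p.1 - 1) :: (A p.1).getD p.2 []))
      (PT.id'.fst.prodMk ((hB.comp PT.id'.fst).prodMk
        ((((h2.comp PT.id'.fst).getD PT.id'.snd (PT.const [])).cons (h5.comp PT.id'.fst)).prodMk
          (((hl'.comp PT.id'.fst).sub (PT.const 1)).cons
            ((hA.comp PT.id'.fst).getD PT.id'.snd (PT.const []))))))
  exact pt_mul hB (pt_mul hB (pt_prodL hB h1) (pt_prodL hB h4)) (pt_prodL hB h6)

theorem pt_tryR {D : α → Ds} {u : α → List El} {l : α → ℕ} {pats : α → List Pat}
    {dat : α → Ds → Pat → List El → El × Tab} {tst : α → Ds → List Tab → List ℕ → El}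
    (V r : ℕ) (hD : PT D) (hu : PT u) (hl : PT fun a => un (l a)) (hp : PT pats)
    (hd : PT fun p : α × Ds × Pat × List El => dat p.1 p.2.1 p.2.2.1 p.2.2.2)
    (ht : PT fun p : α × Ds × List Tab × List ℕ => tst p.1 p.2.1 p.2.2.1 p.2.2.2) :
    PT fun a => tryR (D a) (u a) V (l a) (pats a) (dat a) (tst a) r := by
  have hT : PT fun a => tower (D a) (u a) (V * r) := pt_tower hD hu _
  have hq : PT fun a => (D a).1 ^ (D a).2.length := hD.fst.pow hD.snd.un_length
  have hcd : PT fun p : α × List Pat => (range r).map fun i =>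
      dat p.1 (tower (D p.1) (u p.1) (V * r)).1 (p.2.getD i ([], [], []))
        (((tower (D p.1) (u p.1) (V * r)).2.drop (V * i)).take V) := by
    refine PT.map (f := fun (p : α × List Pat) i =>
      dat p.1 (tower (D p.1) (u p.1) (V * r)).1 (p.2.getD i ([], [], []))
        (((tower (D p.1) (u p.1) (V * r)).2.drop (V * i)).take V)) ?_ (PT.const _)
    have hT' : PT fun p : (α × List Pat) × ℕ => tower (D p.1.1) (u p.1.1) (V * r) :=
      hT.comp PT.id'.fst.fst
    exact hd.comp (g := fun p : (α × List Pat) × ℕ => (p.1.1,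
        (tower (D p.1.1) (u p.1.1) (V * r)).1, p.1.2.getD p.2 ([], [], []),
        ((tower (D p.1.1) (u p.1.1) (V * r)).2.drop (V * p.2)).take V))
      (PT.id'.fst.fst.prodMk (hT'.fst.prodMk
        ((PT.id'.fst.snd.getD PT.id'.snd (PT.const _)).prodMk
          ((PT.const V).take (((PT.const V).mul PT.id'.snd).drop hT'.snd)))))
  unfold tryR
  refine PT.flatMap (f := fun a ps =>
    ((tuples (tuples (range (l a)) r) r).filter fun A => hasPt (tower (D a) (u a) (V * r)).1
      (indR (tower (D a) (u a) (V * r)).1 ((D a).1 ^ (D a).2.length) (l a) (tst a) r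
        ((range r).map fun i => dat a (tower (D a) (u a) (V * r)).1 (ps.getD i ([], [], []))
          (((tower (D a) (u a) (V * r)).2.drop (V * i)).take V)) A)).map fun A =>
      ((range r).map fun i => (A.getD i []).getD i 0).sum) ?_ (pt_tuples hp r)
  refine PT.map (f := fun (_ : α × List Pat) (A : List (List ℕ)) =>
      ((range r).map fun i => (A.getD i []).getD i 0).sum) ?_ ?_
  · refine PT.sum (PT.map (f := fun (p : (α × List Pat) × List (List ℕ)) i =>
      (p.2.getD i []).getD i 0) ?_ (PT.const _))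
    exact (PT.id'.fst.snd.getD PT.id'.snd (PT.const [])).getD PT.id'.snd (PT.const 0)
  · refine PT.filter (f := fun (p : α × List Pat) A => hasPt (tower (D p.1) (u p.1) (V * r)).1
      (indR (tower (D p.1) (u p.1) (V * r)).1 ((D p.1).1 ^ (D p.1).2.length) (l p.1) (tst p.1) r
        ((range r).map fun i => dat p.1 (tower (D p.1) (u p.1) (V * r)).1
          (p.2.getD i ([], [], []))
          (((tower (D p.1) (u p.1) (V * r)).2.drop (V * i)).take V)) A)) ?_
      (pt_tuples (pt_tuples (hl.range.comp PT.id'.fst) r) r)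
    have hT' : PT fun p : (α × List Pat) × List (List ℕ) =>
        (tower (D p.1.1) (u p.1.1) (V * r)).1 := (hT.comp PT.id'.fst.fst).fst
    refine pt_hasPt hT' ?_
    refine pt_indR (tst := fun p : (α × List Pat) × List (List ℕ) => tst p.1.1) r hT'
      (hq.comp PT.id'.fst.fst) (hl.comp PT.id'.fst.fst) ?_ (hcd.comp PT.id'.fst) PT.id'.snd
    exact ht.comp (g := fun p : ((α × List Pat) × List (List ℕ)) × Ds × List Tab × List ℕ =>
      (p.1.1.1, p.2)) (PT.id'.fst.fst.fst.prodMk PT.id'.snd)

theorem pt4 : StmtPT4 := by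
  intro α _ D u l pats dat tst V R hD hu hl hp hd ht
  induction R with
  | zero => exact PT.const 0
  | succ R ih =>
    have h := pt_tryR V (R + 1) hD hu hl hp hd ht
    refine (PT.cond h.isEmpty ih (h.headD (PT.const 0))).congr fun a => ?_
    rw [search, Bool.cond_eq_ite]

theorem ptc (h1 : StmtPT1) (h2 : StmtPT2) (h3 : StmtPT3) (h4 : StmtPT4) : StmtPTC := by
  intro d m R
  obtain ⟨a1, a2, a3, a4⟩ := h1 d m
  obtain ⟨b1, b0, b2, b3⟩ := h3 d m
  have hl : PT fun x : List Bool × Ds × List El => un x.1.length := PT.id'.fst.un_length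
  have hD : PT fun x : List Bool × Ds × List El => x.2.1 := PT.id'.snd.fst
  have hp : PT fun x : List Bool × Ds × List El => pats d m x.1.length := a3.comp PT.id'.fst
  have hu0 : PT fun x : List Bool × Ds × List El => u0 x.2.1 x.2.2 d m x.1.length := by
    refine ((h2.2 (nV0 d m)).comp (g := fun x : List Bool × Ds × List El =>
      (un (x.1.length + 1), x.2.1, [sys0 x.2.1 x.2.2 d m x.1.length]))
      ((hl.un_add (PT.const (un 1))).prodMk (hD.prodMk (b3.cons (PT.const []))))).congr
      fun x => ?_
    simp only [u0, length_un]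
  have hu1 : PT fun x : List Bool × Ds × List El => u1 x.2.1 x.2.2 d m x.1.length := by
    have hs : PT fun x : List Bool × Ds × List El =>
        (pats d m x.1.length).map (sys1 x.2.1 x.2.2 d m x.1.length) := by
      refine PT.map (f := fun (x : List Bool × Ds × List El) pat =>
        sys1 x.2.1 x.2.2 d m x.1.length pat) ?_ hp
      exact a1.comp (g := fun p : (List Bool × Ds × List El) × Pat =>
        (p.1.1, p.1.2.1, p.1.2.2, p.2)) (by fun_prop)
    refine ((h2.2 (nV d m)).comp (g := fun x : List Bool × Ds × List El =>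
      (un (dM d m x.1.length), x.2.1,
        (pats d m x.1.length).map (sys1 x.2.1 x.2.2 d m x.1.length)))
      ((a4.comp PT.id'.fst).prodMk (hD.prodMk hs))).congr fun x => ?_
    simp only [u1, length_un]
  have s0 := h4 (List Bool × Ds × List El) (fun x => x.2.1)
    (fun x => u0 x.2.1 x.2.2 d m x.1.length) (fun x => x.1.length) (fun _ => [([], [], [])])
    (fun x => dat0 x.2.2 d m x.1.length) (fun x => tst0 x.2.2 d m x.1.length) (nV0 d m) R hD hu0
    hl (PT.const _)
    (b2.comp (g := fun p : (List Bool × Ds × List El) × Ds × Pat × List El =>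
      (p.1.1, p.1.2.2, p.2)) (by fun_prop))
    (b0.comp (g := fun p : (List Bool × Ds × List El) × Ds × List Tab × List ℕ =>
      (p.1.1, p.1.2.2, p.2)) (by fun_prop))
  have s1 := h4 (List Bool × Ds × List El) (fun x => x.2.1)
    (fun x => u1 x.2.1 x.2.2 d m x.1.length) (fun x => x.1.length)
    (fun x => pats d m x.1.length)
    (fun x => dat1 x.2.2 d m x.1.length) (fun x => tst1 x.2.2 d m x.1.length) (nV d m) R hD hu1
    hl hp
    (a2.comp (g := fun p : (List Bool × Ds × List El) × Ds × Pat × List El =>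
      (p.1.1, p.1.2.2, p.2)) (by fun_prop))
    (b1.comp (g := fun p : (List Bool × Ds × List El) × Ds × List Tab × List ℕ =>
      (p.1.1, p.1.2.2, p.2)) (by fun_prop))
  have hq : PT fun x : List Bool × Ds × List El => x.2.1.1 ^ x.2.1.2.length :=
    hD.fst.pow hD.snd.un_length
  exact ((hq.pow (PT.const (un 2))).mul s0).add ((hq.mul (hl.of_un.sub (PT.const 1))).mul s1)

end Pool.Agent.MP_cce4c9_lc.H22
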